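import Pool.Agent.Lib.MP_6153ad_an.OwnMain

/-!
# MP_6153ad_an, Q1: negative answer for every bandwidth `a > 0`
-/

set_option autoImplicit false

open Pool.Agent.Lib.MP_6153ad_an Pool.Agent.Lib.MP_6153ad_an.Own

namespace Pool.Agent.Results.MP_6153ad_an.NoEmbedding

/-- For every `a > 0` there is a flow on a compact metric space of covering dimension at most `1`,
of mean dimension `0` (even `Widim_ε (X, d_T) ≤ 4` for all `ε` and `T`), with
`dim P_r < ⌊a r⌋ + 1/2` for every `r > 0`, and a point `x₀` which is not fixed, such that every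
continuous equivariant map of the flow to `B_1 (V[-a, a])` sends `x₀` to a constant function; in
particular no such map is injective. -/
theorem result (a : ℝ) (ha : 0 < a) :
    ∃ (X : Type) (_ : MetricSpace X) (_ : CompactSpace X) (_ : AddAction ℝ X)
      (_ : ContinuousVAdd ℝ X),
      CovDimLE X 1 ∧
      (∀ ε > 0, ∀ T ≥ 0, WidimLE X ε T 4) ∧ HasMeanDim X 0 ∧
      (∀ r > 0, ∃ n : ℤ, CovDimLE (periodicSet X r) n ∧ (n : ℝ) < ⌊a * r⌋ + 1 / 2) ∧
      ∃ x₀ : X, (∃ t : ℝ, t +ᵥ x₀ ≠ x₀) ∧ ∀ Φ : X → ℝ → ℝ,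
        IsMorphism X a Φ → (∀ t, Φ x₀ t = Φ x₀ 0) ∧ ¬ Function.Injective Φ :=
  ⟨XA (a / 2), inferInstance, inferInstance, inferInstance, inferInstance, Own.main a ha⟩

end Pool.Agent.Results.MP_6153ad_an.NoEmbedding
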